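import Pool.Agent.helper79.ClubTransfer

/-!
Under GCH there is, for every natural number `n`, a poset which preserves all cardinals and adds,
for every `1 ≤ m ≤ n`, a club in `ω_m` without infinite ground-model subset.
-/

set_option autoImplicit false

namespace Pool.Agent.Results.MP_b0cd43_lc.ClubNoGroundSubset

open Cardinal Ordinal Pool.Agent.helper79.Club Pool.Agent.helper79.ClubForcing

/-- Under GCH, for every `n` there is a nonempty poset `P` which preserves all cardinals and which
adds, for every `1 ≤ m ≤ n`, a club in `ω_m` without infinite ground-model subset. -/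
theorem result (gch : GCH) (n : ℕ) :
    ∃ (P : Type) (_ : PartialOrder P), Nonempty P ∧ PreservesCardinals P ∧
      ∀ m : ℕ, 1 ≤ m → m ≤ n → ∃ C : Name P (ω_ (m : Ordinal.{0})).ToType, ∀ p : P,
        p ∈ closed C ∧ p ∈ unbounded C ∧ p ∈ noInfiniteGroundSubset C := by
  obtain ⟨Q, _, hQ⟩ := exists_stage n (fun m _ => by
    rw [gch _ (aleph0_le_aleph _), aleph_succ_nat])
  refine ⟨Antisymmetrization Q (· ≤ ·), inferInstance, ?_, preserves_tr hQ.pres, ?_⟩
  · obtain ⟨q⟩ := hQ.ne
    exact ⟨toAntisymmetrization (· ≤ ·) q⟩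
  · intro m _ hm
    obtain ⟨E, hE⟩ := hQ.clubs m hm
    exact ⟨tr E, fun p => ⟨closed_tr hE p, unbounded_tr hE p, noInf_tr hE p⟩⟩

end Pool.Agent.Results.MP_b0cd43_lc.ClubNoGroundSubset
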